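import Pool.Agent.Lib.MP_919f0c_an.LpLower2
import Pool.Agent.Lib.MP_919f0c_an.LpUpper

open scoped ENNReal
open Pool.Agent.MixedBesov Pool.Agent.Lib.MP_919f0c_an.Lp

/-- Q1 for `1 < p < 2` (all `θ`) and for `2 ≤ p < ∞`, `1/p + 1/θ > 1`: the right order is
`m^{-r} (log m)^{(d-1)(r + (1/p - 1/θ)_+)}`. -/
theorem Pool.Agent.Lib.MP_919f0c_an.Uni.interior (𝕜 : Type*) [RCLike 𝕜] (d k : ℕ)
    (hd : 2 ≤ d) (r : ℝ) (p θ : ℝ≥0∞) (hp : 1 < p) (hp' : p < ∞) (hθ : 1 ≤ θ)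
    (hpθ : p < 2 ∨ 1 < 1 / p + 1 / θ) (hr : (1 / p).toReal < r) (hk : r < k) :
    ∃ c C : ℝ, 0 < c ∧ 0 < C ∧ ∃ m₀ : ℕ, ∀ m : ℕ, m₀ ≤ m →
      ENNReal.ofReal (c * ((m : ℝ) ^ (-r) *
        Real.log m ^ (((d : ℝ) - 1) * (r + max ((1 / p).toReal - (1 / θ).toReal) 0)))) ≤
        samplingNumber (besovBall 𝕜 d k r p θ) p m ∧
      samplingNumber (besovBall 𝕜 d k r p θ) p m ≤
        ENNReal.ofReal (C * ((m : ℝ) ^ (-r) *
          Real.log m ^ (((d : ℝ) - 1) * (r + max ((1 / p).toReal - (1 / θ).toReal) 0)))) := by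
  have h1 : 1 < p.toReal := by
    rw [← ENNReal.toReal_one]; exact ENNReal.toReal_strict_mono hp'.ne hp
  have e1 : (1 / p).toReal = p.toReal⁻¹ := by simp
  have hr0 : 0 < r := ENNReal.toReal_nonneg.trans_lt hr
  have hθ0 : θ ≠ 0 := (zero_lt_one.trans_le hθ).ne'
  have H : (∃ τ : ℝ, Adm p.toReal τ ∧ max (1 / τ - (1 / θ).toReal) 0 =
      max ((1 / p).toReal - (1 / θ).toReal) 0) ∧ (max ((1 / p).toReal - (1 / θ).toReal) 0 = 0 ∨
        p.toReal ≤ 2 ∧ max ((1 / p).toReal - (1 / θ).toReal) 0 = p.toReal⁻¹ - (1 / θ).toReal) := by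
    rcases lt_or_ge p 2 with h2 | h2
    · have h3 : p.toReal < 2 := by simpa using ENNReal.toReal_strict_mono (by simp) h2
      refine ⟨⟨_, Or.inl ⟨h1, h3, rfl⟩, by simp⟩, ?_⟩
      rcases le_total ((1 / p).toReal - (1 / θ).toReal) 0 with h | h
      · exact Or.inl (max_eq_right h)
      · exact Or.inr ⟨h3.le, by rw [max_eq_left h, e1]⟩
    · have h3 : 2 ≤ p.toReal := by simpa using ENNReal.toReal_mono hp'.ne h2
      have h4 := ENNReal.toReal_strict_mono (ENNReal.add_ne_top.2 ⟨by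
        simpa using (zero_lt_one.trans hp).ne', by simpa using hθ0⟩) (hpθ.resolve_left h2.not_gt)
      rw [ENNReal.toReal_add (by simpa using (zero_lt_one.trans hp).ne') (by simpa using hθ0), e1,
        ENNReal.toReal_one, one_div, ENNReal.toReal_inv] at h4
      have h5 : p.toReal⁻¹ ≤ 2⁻¹ := inv_anti₀ two_pos h3
      have h6 : 0 < θ.toReal := inv_pos.1 (by linarith)
      have h7 : 1 ≤ θ.toReal := by
        simpa using ENNReal.toReal_mono (fun h => by simp [h] at h6) hθ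
      have h8 : max ((1 / p).toReal - (1 / θ).toReal) 0 = 0 :=
        max_eq_right (by rw [e1, one_div, ENNReal.toReal_inv]; linarith)
      refine ⟨⟨θ.toReal, Or.inr ⟨h3, h7, ?_⟩, by rw [h8]; simp⟩, Or.inl h8⟩
      rw [← lt_div_iff₀' h6, one_div]; linarith
  obtain ⟨⟨τ, hτ, e2⟩, hγ⟩ := H
  obtain ⟨c, hc, m₁, h₁⟩ := lower_Lp 𝕜 (d := d) (by omega) hr0 hk h1 hθ (le_max_right _ _) hγ
  obtain ⟨C, hC, m₂, h₂⟩ := upper_Lp 𝕜 hd hτ hθ hr hk
  rw [e2] at h₂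
  exact ⟨c, C, hc, hC, max m₁ m₂, fun m hm =>
    ⟨h₁ m (le_of_max_le_left hm), h₂ m (le_of_max_le_right hm)⟩⟩
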